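import Pool.Agent.Lib_helper33.Renyi.Szego

/-! Alignment inequality (fixed `s`). -/

namespace Pool.Agent.Lib_helper33.Renyi

open Matrix

open scoped ComplexOrder

variable {ι κ : Type} [Fintype ι] [DecidableEq ι] [Fintype κ] [DecidableEq κ]

lemma mul_pow_cycle {m n : Type} [Fintype m] [DecidableEq m] [Fintype n] [DecidableEq n]
    (A : Matrix m n ℂ) (B : Matrix n m ℂ) (k : ℕ) : (A * B) ^ k * A = A * (B * A) ^ k := by
  induction k with
  | zero => simp
  | succ k ih =>
    rw [pow_succ', Matrix.mul_assoc, ih, pow_succ']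
    simp only [Matrix.mul_assoc]

lemma trn_cycle {m n : Type} [Fintype m] [DecidableEq m] [Fintype n] [DecidableEq n]
    (A : Matrix m n ℂ) (B : Matrix n m ℂ) {k : ℕ} (hk : k ≠ 0) :
    trn (A * B) k = trn (B * A) k := by
  obtain ⟨l, rfl⟩ := Nat.exists_eq_succ_of_ne_zero hk
  unfold trn
  rw [Nat.succ_eq_add_one, pow_succ, ← Matrix.mul_assoc, mul_pow_cycle, trace_mul_comm,
    ← Matrix.mul_assoc, ← pow_succ']

lemma trn_neg_even (X : Matrix κ κ ℂ) {n : ℕ} (hn : Even n) : trn (-X) n = trn X n := by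
  unfold trn
  rw [hn.neg_pow]

lemma fromBlocks_diag_pow (X Y : Matrix κ κ ℂ) (n : ℕ) :
    (fromBlocks X 0 0 Y) ^ n = fromBlocks (X ^ n) 0 0 (Y ^ n) := by
  induction n with
  | zero => simp [fromBlocks_one]
  | succ n ih =>
    rw [pow_succ, ih, fromBlocks_multiply]
    simp [pow_succ]

lemma trn_fromBlocks (X Y : Matrix κ κ ℂ) (n : ℕ) :
    trn (fromBlocks X 0 0 Y) n = trn X n + trn Y n := by
  unfold trn
  rw [fromBlocks_diag_pow]
  simp only [Matrix.trace, Fintype.sum_sum_type, diag_apply, fromBlocks_apply₁₁,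
    fromBlocks_apply₂₂, Complex.add_re]

/-- `diag(√q) E diag(√q)` -/
noncomputable def sand (q : κ → ℝ) (E : Matrix κ κ ℂ) : Matrix κ κ ℂ :=
  Matrix.of fun i j => ((Real.sqrt (q i) * Real.sqrt (q j) : ℝ) : ℂ) * E i j

lemma sand_eq (q : κ → ℝ) (E : Matrix κ κ ℂ) :
    sand q E = diagonal (fun j => ((Real.sqrt (q j) : ℝ) : ℂ)) * E *
      diagonal (fun j => ((Real.sqrt (q j) : ℝ) : ℂ)) := by
  ext i j
  rw [mul_diagonal, diagonal_mul]
  simp only [sand, Matrix.of_apply]
  push_cast; ring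

lemma trn_sand (q : κ → ℝ) (hq : ∀ j, 0 ≤ q j) (E : Matrix κ κ ℂ) {n : ℕ} (hn : n ≠ 0) :
    trn (sand q E) n = trn (diagonal (fun j => (q j : ℂ)) * E) n := by
  rw [sand_eq, Matrix.mul_assoc, trn_cycle _ _ hn, Matrix.mul_assoc, diagonal_mul_diagonal]
  rw [trn_cycle _ _ hn]
  congr 2
  ext i j
  congr 1
  ext k
  rw [← Complex.ofReal_mul, Real.mul_self_sqrt (hq k)]

/-- Gram data at the `j`-th block -/
noncomputable def gal (a : ι → ℝ) (v : ι → ℂ) (s t : ℝ) : ℝ :=
  ∑ i, Complex.normSq (v i) / (s + a i * t)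

noncomputable def gbe (a : ι → ℝ) (v w : ι → ℂ) (s t : ℝ) : ℂ :=
  ∑ i, (starRingEnd ℂ) (v i) * w i / ((s + a i * t : ℝ) : ℂ)

omit [DecidableEq ι] in
lemma gal_nonneg {a : ι → ℝ} (ha : ∀ i, 0 ≤ a i) (v : ι → ℂ) {s t : ℝ} (hs : 0 < s)
    (ht : 0 ≤ t) : 0 ≤ gal a v s t :=
  Finset.sum_nonneg fun i _ => div_nonneg (Complex.normSq_nonneg _)
    (add_nonneg hs.le (mul_nonneg (ha i) ht))

omit [DecidableEq ι] in
lemma gbe_le {a : ι → ℝ} (ha : ∀ i, 0 ≤ a i) (v w : ι → ℂ) {s t : ℝ} (hs : 0 < s)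
    (ht : 0 ≤ t) : Complex.normSq (gbe a v w s t) ≤ gal a v s t * gal a w s t := by
  have hd : ∀ i, 0 < s + a i * t := fun i =>
    add_pos_of_pos_of_nonneg hs (mul_nonneg (ha i) ht)
  have h1 : ‖gbe a v w s t‖ ≤ ∑ i, (‖v i‖ / Real.sqrt (s + a i * t)) *
      (‖w i‖ / Real.sqrt (s + a i * t)) := by
    refine (norm_sum_le _ _).trans (le_of_eq ?_)
    refine Finset.sum_congr rfl fun i _ => ?_
    rw [norm_div, norm_mul, RCLike.norm_conj, Complex.norm_real, Real.norm_of_nonneg (hd i).le,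
      div_mul_div_comm, Real.mul_self_sqrt (hd i).le]
  have h2 := Finset.sum_mul_sq_le_sq_mul_sq Finset.univ
    (fun i => ‖v i‖ / Real.sqrt (s + a i * t)) (fun i => ‖w i‖ / Real.sqrt (s + a i * t))
  have e1 : ∀ u : ι → ℂ, ∑ i, (‖u i‖ / Real.sqrt (s + a i * t)) ^ 2 = gal a u s t := by
    intro u
    refine Finset.sum_congr rfl fun i _ => ?_
    rw [div_pow, Real.sq_sqrt (hd i).le, Complex.normSq_eq_norm_sq]
  rw [e1, e1] at h2
  rw [Complex.normSq_eq_norm_sq]
  refine le_trans ?_ h2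
  exact pow_le_pow_left₀ (norm_nonneg _) h1 2

/-- the positive eigenvalue of `(s + t A)^{-1} (v v^* - w w^*)` -/
noncomputable def lam (a : ι → ℝ) (v w : ι → ℂ) (s t : ℝ) : ℝ :=
  lpos (gal a v s t) (gal a w s t) (Complex.normSq (gbe a v w s t))

omit [DecidableEq ι] in
lemma lam_nonneg {a : ι → ℝ} (ha : ∀ i, 0 ≤ a i) (v w : ι → ℂ) {s t : ℝ} (hs : 0 < s)
    (ht : 0 ≤ t) : 0 ≤ lam a v w s t := lpos_nonneg (gbe_le ha v w hs ht)

omit [DecidableEq ι] in
lemma gbe_swap (a : ι → ℝ) (v w : ι → ℂ) (s t : ℝ) :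
    gbe a w v s t = (starRingEnd ℂ) (gbe a v w s t) := by
  unfold gbe
  rw [map_sum]
  refine Finset.sum_congr rfl fun i _ => ?_
  rw [map_div₀, map_mul, Complex.conj_conj, Complex.conj_ofReal, mul_comm]

omit [DecidableEq ι] in
lemma lam_swap (a : ι → ℝ) (v w : ι → ℂ) (s t : ℝ) :
    lam a w v s t = lpos (gal a w s t) (gal a v s t) (Complex.normSq (gbe a v w s t)) := by
  unfold lam
  rw [gbe_swap, Complex.normSq_conj]

/-- **Alignment inequality.** -/
theorem align {a : ι → ℝ} (ha : ∀ i, 0 ≤ a i) (v w : ι → ℂ) {b : κ → ℝ} (hb : ∀ j, 0 ≤ b j)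
    {E : Matrix κ κ ℂ} (hE : E.IsHermitian) {s : ℝ} (hs : 0 < s) {n : ℕ} (hn : Even n)
    (hn0 : n ≠ 0) :
    trn (diagonal (fun j => (lam a v w s (b j) : ℂ)) * E) n +
      trn (diagonal (fun j => (lam a w v s (b j) : ℂ)) * E) n ≤
    trn (Hs (ta a b) (tD (vecMulVec v (star v) - vecMulVec w (star w)) E) s) n := by
  have hd : ∀ i j, 0 < s + a i * b j := fun i j =>
    add_pos_of_pos_of_nonneg hs (mul_nonneg (ha i) (hb j))
  -- 2x2 matrices
  have hm : ∀ j, ∃ m : Matrix (Fin 2) (Fin 2) ℂ, m * mᴴ =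
      !![(gal a v s (b j) : ℂ), gbe a v w s (b j); (starRingEnd ℂ) (gbe a v w s (b j)),
        (gal a w s (b j) : ℂ)] ∧
      mᴴ * J2 * m = !![(lam a v w s (b j) : ℂ), 0; 0, -(lam a w v s (b j) : ℂ)] := by
    intro j
    rw [lam_swap a v w s (b j)]
    exact exists_m2 _ _ _ (gal_nonneg ha v hs (hb j)) (gal_nonneg ha w hs (hb j))
      (gbe_le ha v w hs (hb j))
  choose m hm1 hm2 using hm
  set U : Matrix (ι × κ) (κ ⊕ κ) ℂ := Matrix.of fun p e =>
    Sum.elim (fun j => if p.2 = j then v p.1 / ((Real.sqrt (s + a p.1 * b p.2) : ℝ) : ℂ) else 0)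
      (fun j => if p.2 = j then w p.1 / ((Real.sqrt (s + a p.1 * b p.2) : ℝ) : ℂ) else 0) e
    with hU
  set N : Matrix (κ ⊕ κ) (κ ⊕ κ) ℂ := fromBlocks E 0 0 (-E) with hN
  set M : Matrix (κ ⊕ κ) (κ ⊕ κ) ℂ := fromBlocks (diagonal fun j => m j 0 0)
    (diagonal fun j => m j 0 1) (diagonal fun j => m j 1 0) (diagonal fun j => m j 1 1) with hM
  have hH : Hs (ta a b) (tD (vecMulVec v (star v) - vecMulVec w (star w)) E) s = U * N * Uᴴ := by
    ext p p'
    obtain ⟨i, j⟩ := p
    obtain ⟨i', j'⟩ := p'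
    have hUN : ∀ e, (U * N) (i, j) e = Sum.elim
        (fun k => v i / ((Real.sqrt (s + a i * b j) : ℝ) : ℂ) * E j k)
        (fun k => - (w i / ((Real.sqrt (s + a i * b j) : ℝ) : ℂ) * E j k)) e := by
      intro e
      rw [Matrix.mul_apply, Fintype.sum_sum_type]
      rcases e with k | k
      · simp [hU, hN]
      · simp [hU, hN]
    rw [Matrix.mul_apply, Fintype.sum_sum_type]
    simp only [hUN, Sum.elim_inl, Sum.elim_inr, conjTranspose_apply]
    simp only [hU, Matrix.of_apply, Sum.elim_inl, Sum.elim_inr]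
    simp only [apply_ite (star (R := ℂ)), star_zero, mul_ite, mul_zero, Finset.sum_ite_eq,
      Finset.mem_univ, if_true]
    simp only [Hs, Matrix.of_apply, ta, tD, kroneckerMap_apply, Matrix.sub_apply, vecMulVec_apply,
      Pi.star_apply, star_div₀]
    rw [show star ((Real.sqrt (s + a i' * b j') : ℝ) : ℂ) = ((Real.sqrt (s + a i' * b j') : ℝ) : ℂ)
      from Complex.conj_ofReal _]
    have h1 : ((Real.sqrt (s + a i * b j) : ℝ) : ℂ) ≠ 0 := by
      exact_mod_cast (Real.sqrt_pos.mpr (hd i j)).ne'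
    have h2 : ((Real.sqrt (s + a i' * b j') : ℝ) : ℂ) ≠ 0 := by
      exact_mod_cast (Real.sqrt_pos.mpr (hd i' j')).ne'
    push_cast
    field_simp
    ring
  have hR : Uᴴ * U = M * Mᴴ := by
    have hUU : ∀ (x y : ι → ℂ) (j k : κ), ∑ p : ι × κ,
        star (if p.2 = j then x p.1 / ((Real.sqrt (s + a p.1 * b p.2) : ℝ) : ℂ) else 0) *
        (if p.2 = k then y p.1 / ((Real.sqrt (s + a p.1 * b p.2) : ℝ) : ℂ) else 0) =
        if j = k then gbe a x y s (b j) else 0 := by
      intro x y j k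
      rw [Fintype.sum_prod_type]
      by_cases hjk : j = k
      · subst hjk
        rw [if_pos rfl]
        unfold gbe
        refine Finset.sum_congr rfl fun i _ => ?_
        rw [Finset.sum_eq_single j]
        · simp only [if_true]
          rw [star_div₀, show star ((Real.sqrt (s + a i * b j) : ℝ) : ℂ) =
            ((Real.sqrt (s + a i * b j) : ℝ) : ℂ) from Complex.conj_ofReal _, div_mul_div_comm,
            ← Complex.ofReal_mul, Real.mul_self_sqrt (hd i j).le]
          rfl
        · intro l _ hl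
          simp [hl]
        · intro h; exact absurd (Finset.mem_univ _) h
      · rw [if_neg hjk]
        refine Finset.sum_eq_zero fun i _ => Finset.sum_eq_zero fun l _ => ?_
        by_cases h1 : l = j
        · subst h1
          simp [hjk]
        · simp [h1]
    have hself : ∀ (x : ι → ℂ) (j : κ), gbe a x x s (b j) = (gal a x s (b j) : ℂ) := by
      intro x j
      unfold gbe gal
      push_cast
      refine Finset.sum_congr rfl fun i _ => ?_
      rw [← Complex.normSq_eq_conj_mul_self]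
    have hmm : ∀ j, m j 0 0 * star (m j 0 0) + m j 0 1 * star (m j 0 1) = (gal a v s (b j) : ℂ) ∧
        m j 0 0 * star (m j 1 0) + m j 0 1 * star (m j 1 1) = gbe a v w s (b j) ∧
        m j 1 0 * star (m j 0 0) + m j 1 1 * star (m j 0 1) =
          (starRingEnd ℂ) (gbe a v w s (b j)) ∧
        m j 1 0 * star (m j 1 0) + m j 1 1 * star (m j 1 1) = (gal a w s (b j) : ℂ) := by
      intro j
      have h := hm1 j
      have h00 := congrFun (congrFun h 0) 0
      have h01 := congrFun (congrFun h 0) 1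
      have h10 := congrFun (congrFun h 1) 0
      have h11 := congrFun (congrFun h 1) 1
      simp only [Matrix.mul_apply, Fin.sum_univ_two, conjTranspose_apply] at h00 h01 h10 h11
      refine ⟨?_, ?_, ?_, ?_⟩
      · simpa using h00
      · simpa using h01
      · simpa using h10
      · simpa using h11
    rw [hM, fromBlocks_conjTranspose, fromBlocks_multiply]
    simp only [diagonal_conjTranspose, diagonal_mul_diagonal, diagonal_add]
    ext e e'
    rw [Matrix.mul_apply]
    rcases e with j | j <;> rcases e' with k | k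
    · rw [fromBlocks_apply₁₁]
      simp only [hU, conjTranspose_apply, Matrix.of_apply, Sum.elim_inl]
      rw [hUU v v j k, hself, diagonal_apply]
      simp only [Pi.star_apply]
      rw [(hmm j).1]
    · rw [fromBlocks_apply₁₂]
      simp only [hU, conjTranspose_apply, Matrix.of_apply, Sum.elim_inl, Sum.elim_inr]
      rw [hUU v w j k, diagonal_apply]
      simp only [Pi.star_apply]
      rw [(hmm j).2.1]
    · rw [fromBlocks_apply₂₁]
      simp only [hU, conjTranspose_apply, Matrix.of_apply, Sum.elim_inl, Sum.elim_inr]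
      rw [hUU w v j k, diagonal_apply]
      simp only [Pi.star_apply]
      rw [(hmm j).2.2.1, gbe_swap]
    · rw [fromBlocks_apply₂₂]
      simp only [hU, conjTranspose_apply, Matrix.of_apply, Sum.elim_inr]
      rw [hUU w w j k, hself, diagonal_apply]
      simp only [Pi.star_apply]
      rw [(hmm j).2.2.2]
  -- conj invariants
  have hx : ∀ j, Complex.normSq (m j 0 0) - Complex.normSq (m j 1 0) = lam a v w s (b j) := by
    intro j
    have h := congrFun (congrFun (hm2 j) 0) 0
    simp only [J2, Matrix.mul_apply, Fin.sum_univ_two, conjTranspose_apply] at h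
    simp at h
    have h2 : (starRingEnd ℂ) (m j 0 0) * m j 0 0 - (starRingEnd ℂ) (m j 1 0) * m j 1 0 =
        (lam a v w s (b j) : ℂ) := by
      rw [← h]; ring
    rw [← Complex.normSq_eq_conj_mul_self, ← Complex.normSq_eq_conj_mul_self] at h2
    exact_mod_cast h2
  have hy : ∀ j, Complex.normSq (m j 1 1) - Complex.normSq (m j 0 1) = lam a w v s (b j) := by
    intro j
    have h := congrFun (congrFun (hm2 j) 1) 1
    simp only [J2, Matrix.mul_apply, Fin.sum_univ_two, conjTranspose_apply] at h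
    simp at h
    have h2 : (starRingEnd ℂ) (m j 1 1) * m j 1 1 - (starRingEnd ℂ) (m j 0 1) * m j 0 1 =
        (lam a w v s (b j) : ℂ) := by
      linear_combination -h
    rw [← Complex.normSq_eq_conj_mul_self, ← Complex.normSq_eq_conj_mul_self] at h2
    exact_mod_cast h2
  -- the two correlation matrices
  set C1 := szego (fun j => m j 0 0) (fun j => m j 1 0) (fun j => lam a v w s (b j)) with hC1
  set C2 := szego (fun j => m j 1 1) (fun j => m j 0 1) (fun j => lam a w v s (b j)) with hC2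
  have hl1 : ∀ j, 0 ≤ lam a v w s (b j) := fun j => lam_nonneg ha v w hs (hb j)
  have hl2 : ∀ j, 0 ≤ lam a w v s (b j) := fun j => lam_nonneg ha w v hs (hb j)
  obtain ⟨B1, hB1⟩ := exists_factor (szego_posSemidef _ _ _ hx)
  obtain ⟨B2, hB2⟩ := exists_factor (szego_posSemidef _ _ _ hy)
  rw [← hC1] at hB1
  rw [← hC2] at hB2
  set C : Matrix (κ ⊕ κ) (κ ⊕ κ) ℂ := fromBlocks C1 0 0 C2 with hC
  have hCp : C.PosSemidef := by
    have : C = (fromBlocks B1 0 0 B2)ᴴ * (fromBlocks B1 0 0 B2) := by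
      rw [fromBlocks_conjTranspose, fromBlocks_multiply, hC, hB1, hB2]
      simp
    rw [this]
    exact posSemidef_conjTranspose_mul_self _
  have hCd : ∀ e, C e e = 1 := by
    rintro (j | j)
    · rw [hC, fromBlocks_apply₁₁]; exact szego_diag _ _ _ hx j
    · rw [hC, fromBlocks_apply₂₂]; exact szego_diag _ _ _ hy j
  have hNh : N.IsHermitian := by
    rw [hN, isHermitian_fromBlocks_iff]
    exact ⟨hE, by simp, by simp, hE.neg⟩
  have hHt : (Mᴴ * N * M).IsHermitian := isHermitian_conjTranspose_mul_mul M hNh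
  have key := trace_pow_hadamard_le hCp hCd hHt hn
  have e1 : trn (Hs (ta a b) (tD (vecMulVec v (star v) - vecMulVec w (star w)) E) s) n =
      ((Mᴴ * N * M) ^ n).trace.re := by
    rw [hH, Matrix.mul_assoc, trn_cycle _ _ hn0, Matrix.mul_assoc, hR, ← Matrix.mul_assoc,
      trn_cycle _ _ hn0, ← Matrix.mul_assoc]
    rfl
  have e2 : C ⊙ (Mᴴ * N * M) = fromBlocks (sand (fun j => lam a v w s (b j)) E) 0 0
      (-(sand (fun j => lam a w v s (b j)) E)) := by
    rw [hM, hN, fromBlocks_conjTranspose, fromBlocks_multiply, fromBlocks_multiply]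
    ext e e'
    rcases e with j | j <;> rcases e' with k | k
    · rw [hadamard_apply, hC, fromBlocks_apply₁₁, fromBlocks_apply₁₁, fromBlocks_apply₁₁]
      have h1 := szego_mul _ _ _ hl1 hx j k
      rw [← hC1] at h1
      simp only [Matrix.add_apply, diagonal_conjTranspose, diagonal_mul, mul_diagonal,
        Matrix.mul_zero, add_zero, zero_add, Matrix.mul_neg, Matrix.neg_mul,
        Matrix.neg_apply, Pi.star_apply, sand, Matrix.of_apply]
      rw [← h1]
      simp only [Complex.star_def]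
      ring
    · rw [hadamard_apply, hC, fromBlocks_apply₁₂, fromBlocks_apply₁₂]
      simp
    · rw [hadamard_apply, hC, fromBlocks_apply₂₁, fromBlocks_apply₂₁]
      simp
    · rw [hadamard_apply, hC, fromBlocks_apply₂₂, fromBlocks_apply₂₂, fromBlocks_apply₂₂]
      have h1 := szego_mul _ _ _ hl2 hy j k
      rw [← hC2] at h1
      simp only [Matrix.add_apply, diagonal_conjTranspose, diagonal_mul, mul_diagonal,
        Matrix.mul_zero, add_zero, zero_add, Matrix.mul_neg, Matrix.neg_mul,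
        Matrix.neg_apply, Pi.star_apply, sand, Matrix.of_apply]
      rw [← h1]
      simp only [Complex.star_def]
      ring
  rw [e1]
  refine le_trans (le_of_eq ?_) key
  rw [e2]
  change _ = trn _ n
  rw [trn_fromBlocks, trn_neg_even _ hn, trn_sand _ hl1 _ hn0, trn_sand _ hl2 _ hn0]

end Pool.Agent.Lib_helper33.Renyi
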