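import Mathlib

/-! Common definitions (diagonal-basis form) for the information combining inequality. -/

namespace Pool.Agent.Lib_helper33.Renyi

open Matrix MeasureTheory

open scoped ENNReal ComplexOrder

variable {ι κ : Type} [Fintype ι] [DecidableEq ι] [Fintype κ] [DecidableEq κ]

/-- `H_s = (s+A)^{-1/2} D (s+A)^{-1/2}` for `A = diagonal a`. -/
noncomputable def Hs (a : ι → ℝ) (D : Matrix ι ι ℂ) (s : ℝ) : Matrix ι ι ℂ :=
  Matrix.of fun i j => D i j / ((Real.sqrt (s + a i) * Real.sqrt (s + a j) : ℝ) : ℂ)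

/-- Real part of the trace of the `n`-th power. -/
noncomputable def trn (X : Matrix ι ι ℂ) (n : ℕ) : ℝ := ((X ^ n).trace).re

/-- `W_n(A,D) = ∫_0^∞ s^{α-1} Tr H_s^n ds`. -/
noncomputable def Wn (α : ℝ) (a : ι → ℝ) (D : Matrix ι ι ℂ) (n : ℕ) : ℝ≥0∞ :=
  ∫⁻ s in Set.Ioi (0 : ℝ), ENNReal.ofReal (s ^ (α - 1) * trn (Hs a D s) n)

/-- `β_n = W_n(1,1) = ∫_0^∞ s^{α-1} (1+s)^{-n} ds`. -/
noncomputable def betan (α : ℝ) (n : ℕ) : ℝ≥0∞ :=
  ∫⁻ s in Set.Ioi (0 : ℝ), ENNReal.ofReal (s ^ (α - 1) * ((s + 1) ^ n)⁻¹)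

/-- tensor product of the diagonal parts -/
def ta (a : ι → ℝ) (b : κ → ℝ) : ι × κ → ℝ := fun p => a p.1 * b p.2

/-- tensor product of the difference parts -/
noncomputable def tD (D : Matrix ι ι ℂ) (E : Matrix κ κ ℂ) : Matrix (ι × κ) (ι × κ) ℂ :=
  Matrix.kroneckerMap (· * ·) D E

/-- admissible pair: `A = diagonal a ≥ 0`, `-A ≤ D ≤ A`. -/
structure Adm (a : ι → ℝ) (D : Matrix ι ι ℂ) : Prop where
  nonneg : ∀ i, 0 ≤ a i
  herm : D.IsHermitian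
  le : (diagonal (fun i => (a i : ℂ)) - D).PosSemidef
  ge : (diagonal (fun i => (a i : ℂ)) + D).PosSemidef

/-- signature at most (1,1), vectors supported on the support of `a`. -/
def Sig11 (a : ι → ℝ) (D : Matrix ι ι ℂ) : Prop :=
  ∃ v w : ι → ℂ, (∀ i, a i = 0 → v i = 0 ∧ w i = 0) ∧
    D = vecMulVec v (star v) - vecMulVec w (star w)

/-
BLOCK STATEMENTS (n even, 2 ≤ n, 0 < α < n):

B1  phi_concave : E.IsHermitian → ConcaveOn ℝ {q | ∀ j, 0 ≤ q j}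
      (fun q => trn (diagonal (fun j => ((q j ^ ((n:ℝ)⁻¹) : ℝ) : ℂ)) * E) n)
B3  align : for fixed s>0, D1 = v v^* - w w^*, (lp j, lm j) eigenvalues of R_j J :
      ∑ over ± of trn (diagonal |l± j| * D2) n ≤ trn (Hs (ta a b) (tD D1 D2) s) n
SM  : (∀ i, 0 ≤ a i) → Sig11 a D1 → (∀ j, 0 ≤ b j) → D2.IsHermitian →
      (∀ j k, b j = 0 → D2 j k = 0) →
      Wn α a D1 n * Wn α b D2 n ≤ betan α n * Wn α (ta a b) (tD D1 D2) n
DEC : Adm a D → (n*(n+1)) * Wn α a D (n+2) ≤ ENNReal.ofReal ((n-α)*(n+1-α)) * Wn α a D n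
      and equality n(n+1) betan (n+2) = (n-α)(n+1-α) betan n, betan finite positive
-/

end Pool.Agent.Lib_helper33.Renyi
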