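import Pool.Agent.Lib_helper33.Renyi.Basic
import Pool.Agent.Lib_helper33.Renyi.Defs

/-! Concavity of `q ↦ Tr (diag(q^{1/n}) E)^n` for hermitian `E` and even `n`. -/

namespace Pool.Agent.Lib_helper33.Renyi

open Matrix

open scoped ComplexOrder

variable {ι : Type} [Fintype ι] [DecidableEq ι]

/-! ### entrywise derivatives of matrix functions -/

def MD (P : ℝ → Matrix ι ι ℂ) (P' : Matrix ι ι ℂ) (t : ℝ) : Prop :=
  ∀ i j, HasDerivAt (fun t => P t i j) (P' i j) t

omit [DecidableEq ι] in
lemma MD.mul {P Q : ℝ → Matrix ι ι ℂ} {P' Q' : Matrix ι ι ℂ} {t : ℝ} (hP : MD P P' t)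
    (hQ : MD Q Q' t) : MD (fun t => P t * Q t) (P' * Q t + P t * Q') t := by
  intro i j
  simp only [Matrix.mul_apply, Matrix.add_apply]
  rw [← Finset.sum_add_distrib]
  exact HasDerivAt.fun_sum fun k _ => (hP i k).mul (hQ k j)

omit [Fintype ι] in
lemma MD.one (t : ℝ) : MD (fun _ => (1 : Matrix ι ι ℂ)) 0 t := by
  intro i j
  exact hasDerivAt_const _ _

lemma MD.pow {P : ℝ → Matrix ι ι ℂ} {P' : Matrix ι ι ℂ} {t : ℝ} (hP : MD P P' t) (n : ℕ) :
    MD (fun t => P t ^ n) (∑ m ∈ Finset.range n, P t ^ m * P' * P t ^ (n - 1 - m)) t := by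
  induction n with
  | zero => simpa using MD.one t
  | succ n ih =>
    have h := ih.mul hP
    have e : (∑ m ∈ Finset.range n, P t ^ m * P' * P t ^ (n - 1 - m)) * P t + P t ^ n * P' =
        ∑ m ∈ Finset.range (n + 1), P t ^ m * P' * P t ^ (n + 1 - 1 - m) := by
      rw [Finset.sum_range_succ, Finset.sum_mul]
      congr 1
      · refine Finset.sum_congr rfl fun m hm => ?_
        rw [Finset.mem_range] at hm
        rw [Matrix.mul_assoc (P t ^ m * P'), ← pow_succ]
        congr 2
        omega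
      · simp
    rw [e] at h
    simpa only [pow_succ] using h

omit [DecidableEq ι] in
lemma MD.trace {P : ℝ → Matrix ι ι ℂ} {P' : Matrix ι ι ℂ} {t : ℝ} (hP : MD P P' t) :
    HasDerivAt (fun t => (P t).trace) P'.trace t := by
  simp only [Matrix.trace, diag_apply]
  exact HasDerivAt.fun_sum fun i _ => hP i i

omit [DecidableEq ι] in
lemma MD.re_trace {P : ℝ → Matrix ι ι ℂ} {P' : Matrix ι ι ℂ} {t : ℝ} (hP : MD P P' t) :
    HasDerivAt (fun t => ((P t).trace).re) (P'.trace.re) t := by
  have h : HasDerivAt (fun t => Complex.reCLM ((P t).trace)) (Complex.reCLM P'.trace) t :=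
    (Complex.reCLM.hasFDerivAt (x := (P t).trace)).comp_hasDerivAt t hP.trace
  exact h

/-! ### the trace inequality -/

lemma young_pow {n m : ℕ} (hn : Even n) (hm : m ≤ n) (x y : ℝ) :
    (n : ℝ) * (x ^ m * y ^ (n - m)) ≤ m * x ^ n + (n - m : ℕ) * y ^ n := by
  rcases Nat.eq_zero_or_pos n with h0 | hpos
  · subst h0; simp
  have hn' : (0 : ℝ) < n := by exact_mod_cast hpos
  have h := Real.geom_mean_le_arith_mean2_weighted (w₁ := m / n) (w₂ := (n - m : ℕ) / n)
    (p₁ := |x| ^ n) (p₂ := |y| ^ n) (by positivity) (by positivity) (by positivity)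
    (by positivity) (by rw [← add_div, Nat.cast_sub hm]; field_simp; ring)
  have e1 : (|x| ^ n) ^ ((m : ℝ) / n) = |x| ^ m := by
    rw [← Real.rpow_natCast, ← Real.rpow_mul (abs_nonneg x), mul_div_cancel₀ _ hn'.ne',
      Real.rpow_natCast]
  have e2 : (|y| ^ n) ^ (((n - m : ℕ) : ℝ) / n) = |y| ^ (n - m) := by
    rw [← Real.rpow_natCast, ← Real.rpow_mul (abs_nonneg y), mul_div_cancel₀ _ hn'.ne',
      Real.rpow_natCast]
  rw [e1, e2, hn.pow_abs, hn.pow_abs] at h
  have h2 : x ^ m * y ^ (n - m) ≤ |x| ^ m * |y| ^ (n - m) := by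
    rw [← abs_pow, ← abs_pow, ← abs_mul]
    exact le_abs_self _
  have h3 : (n : ℝ) * (x ^ m * y ^ (n - m)) ≤
      n * (m / n * x ^ n + (n - m : ℕ) / n * y ^ n) :=
    mul_le_mul_of_nonneg_left (h2.trans h) hn'.le
  refine h3.trans (le_of_eq ?_)
  field_simp

/-- `Re tr (Z X^m Z X^{n-m}) ≤ Re tr (Z Z X^n)` -/
lemma ZXZX_le {X Z : Matrix ι ι ℂ} (hX : X.IsHermitian) (hZ : Z.IsHermitian) {n m : ℕ}
    (hn : Even n) (hm : m ≤ n) :
    ((Z * X ^ m * Z * X ^ (n - m)).trace).re ≤ ((Z * Z * X ^ n).trace).re := by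
  rcases Nat.eq_zero_or_pos n with h0 | hpos
  · subst h0
    have : m = 0 := by omega
    subst this; simp
  have hn' : (0 : ℝ) < n := by exact_mod_cast hpos
  obtain ⟨U, l, hU, hU', rfl⟩ := exists_diag hX
  have e1 := trace_ZXZX l hU hU' hZ m (n - m)
  have e2 := trace_ZXZX l hU hU' hZ 0 n
  rw [pow_zero, Matrix.mul_one] at e2
  rw [e1, e2, Complex.ofReal_re, Complex.ofReal_re]
  set N : ι → ι → ℝ := fun a b => Complex.normSq ((Uᴴ * Z * U) a b) with hN
  have hsym : ∀ a b, N a b = N b a := by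
    intro a b
    have hW : (Uᴴ * Z * U).IsHermitian := isHermitian_conjTranspose_mul_mul U hZ
    have := congrFun (congrFun hW a) b
    rw [conjTranspose_apply] at this
    simp only [hN]
    rw [← this, Complex.star_def, Complex.normSq_conj]
  have h1 : (n : ℝ) * ∑ a, ∑ b, N a b * l a ^ m * l b ^ (n - m) ≤
      n * ∑ a, ∑ b, N a b * l a ^ 0 * l b ^ n := by
    calc (n : ℝ) * ∑ a, ∑ b, N a b * l a ^ m * l b ^ (n - m)
        = ∑ a, ∑ b, N a b * (n * (l a ^ m * l b ^ (n - m))) := by
          simp only [Finset.mul_sum]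
          refine Finset.sum_congr rfl fun a _ => Finset.sum_congr rfl fun b _ => ?_
          ring
      _ ≤ ∑ a, ∑ b, N a b * (m * l a ^ n + (n - m : ℕ) * l b ^ n) :=
          Finset.sum_le_sum fun a _ => Finset.sum_le_sum fun b _ =>
            mul_le_mul_of_nonneg_left (young_pow hn hm _ _) (Complex.normSq_nonneg _)
      _ = m * (∑ a, ∑ b, N a b * l a ^ n) + (n - m : ℕ) * ∑ a, ∑ b, N a b * l b ^ n := by
          simp only [Finset.mul_sum]
          rw [← Finset.sum_add_distrib]
          refine Finset.sum_congr rfl fun a _ => ?_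
          rw [← Finset.sum_add_distrib]
          refine Finset.sum_congr rfl fun b _ => ?_
          ring
      _ = n * ∑ a, ∑ b, N a b * l a ^ 0 * l b ^ n := by
          have e3 : ∑ a, ∑ b, N a b * l a ^ n = ∑ a, ∑ b, N a b * l b ^ n := by
            rw [Finset.sum_comm]
            refine Finset.sum_congr rfl fun a _ => Finset.sum_congr rfl fun b _ => ?_
            rw [hsym]
          rw [e3, Nat.cast_sub hm]
          simp only [pow_zero, mul_one]
          ring
  exact le_of_mul_le_mul_left h1 hn'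

/-- conjugation by a commuting diagonal matrix -/
lemma trace_conj_diag {T : ι → ℝ} (hT : ∀ j, 0 < T j) (E : Matrix ι ι ℂ) (z : ι → ℂ) (m k : ℕ) :
    (diagonal z * (diagonal (fun j => (T j : ℂ)) * E) ^ m * diagonal z *
      (diagonal (fun j => (T j : ℂ)) * E) ^ k).trace =
    (diagonal z * (diagonal (fun j => ((Real.sqrt (T j) : ℝ) : ℂ)) * E *
        diagonal (fun j => ((Real.sqrt (T j) : ℝ) : ℂ))) ^ m * diagonal z *
      (diagonal (fun j => ((Real.sqrt (T j) : ℝ) : ℂ)) * E *
        diagonal (fun j => ((Real.sqrt (T j) : ℝ) : ℂ))) ^ k).trace := by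
  set S : Matrix ι ι ℂ := diagonal (fun j => ((Real.sqrt (T j) : ℝ) : ℂ)) with hS
  set S' : Matrix ι ι ℂ := diagonal (fun j => (((Real.sqrt (T j))⁻¹ : ℝ) : ℂ)) with hS'
  have h1 : S * S' = 1 := by
    rw [hS, hS', diagonal_mul_diagonal, ← diagonal_one]
    congr 1; ext j
    rw [← Complex.ofReal_mul, mul_inv_cancel₀ (Real.sqrt_pos.mpr (hT j)).ne', Complex.ofReal_one]
  have h2 : S' * S = 1 := by
    rw [hS, hS', diagonal_mul_diagonal, ← diagonal_one]
    congr 1; ext j
    rw [← Complex.ofReal_mul, inv_mul_cancel₀ (Real.sqrt_pos.mpr (hT j)).ne', Complex.ofReal_one]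
  have h3 : diagonal (fun j => (T j : ℂ)) = S * S := by
    rw [hS, diagonal_mul_diagonal]
    congr 1; ext j
    rw [← Complex.ofReal_mul, Real.mul_self_sqrt (hT j).le]
  have h4 : ∀ m : ℕ, (diagonal (fun j => (T j : ℂ)) * E) ^ m = S * (S * E * S) ^ m * S' := by
    intro m
    induction m with
    | zero => simp [h1]
    | succ m ih =>
      rw [pow_succ, ih, h3, pow_succ]
      calc S * (S * E * S) ^ m * S' * (S * S * E)
          = S * (S * E * S) ^ m * (S' * S) * S * E := by simp only [Matrix.mul_assoc]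
        _ = S * (S * E * S) ^ m * (S * E) * (S * S') := by
            rw [h2, h1]; simp only [Matrix.mul_assoc, Matrix.mul_one]
        _ = _ := by simp only [Matrix.mul_assoc]
  have hcomm : S' * diagonal z * S = diagonal z := by
    rw [hS, hS', diagonal_mul_diagonal, diagonal_mul_diagonal]
    congr 1; ext j
    have := (Real.sqrt_pos.mpr (hT j)).ne'
    push_cast
    have h' : ((Real.sqrt (T j) : ℝ) : ℂ) ≠ 0 := by exact_mod_cast this
    field_simp
  have hcomm2 : S' * diagonal z = diagonal z * S' := by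
    rw [hS', diagonal_mul_diagonal, diagonal_mul_diagonal]
    congr 1; ext j; ring
  rw [h4, h4]
  calc (diagonal z * (S * (S * E * S) ^ m * S') * diagonal z * (S * (S * E * S) ^ k * S')).trace
      = (S' * (diagonal z * S * (S * E * S) ^ m * S' * diagonal z * S * (S * E * S) ^ k)).trace := by
        rw [trace_mul_comm S']
        simp only [Matrix.mul_assoc]
    _ = ((S' * diagonal z * S) * (S * E * S) ^ m * (S' * diagonal z * S) *
          (S * E * S) ^ k).trace := by simp only [Matrix.mul_assoc]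
    _ = _ := by rw [hcomm]

/-! ### second derivative along a line -/

/-- derivative of `tr P^n` for `P = diag(T) E`. -/
lemma hasDerivAt_trn {P : ℝ → Matrix ι ι ℂ} {z : ι → ℂ} {t : ℝ}
    (hP : MD P (diagonal z * P t) t) (n : ℕ) :
    HasDerivAt (fun t => trn (P t) n) (n * ((diagonal z * P t ^ n).trace).re) t := by
  have h := (hP.pow n).re_trace
  have e : ((∑ m ∈ Finset.range n, P t ^ m * (diagonal z * P t) * P t ^ (n - 1 - m)).trace).re =
      n * ((diagonal z * P t ^ n).trace).re := by
    rw [trace_sum, Complex.re_sum]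
    rw [Finset.sum_congr rfl (g := fun _ => ((diagonal z * P t ^ n).trace).re)]
    · simp
    · intro m hm
      rw [Finset.mem_range] at hm
      rw [trace_mul_comm, ← Matrix.mul_assoc, ← pow_add, trace_mul_comm,
        Matrix.mul_assoc, ← pow_succ']
      congr 4
      omega
  rw [e] at h
  exact h

lemma hasDerivAt_tr_z {P : ℝ → Matrix ι ι ℂ} {z : ℝ → ι → ℂ} {z' : ι → ℂ} {t : ℝ}
    (hP : MD P (diagonal (z t) * P t) t)
    (hz : ∀ j, HasDerivAt (fun t => z t j) (z' j) t) (n : ℕ) :
    HasDerivAt (fun t => ((diagonal (z t) * P t ^ n).trace).re)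
      (((diagonal z' * P t ^ n).trace).re +
        ∑ m ∈ Finset.range n, ((diagonal (z t) * P t ^ m * diagonal (z t) *
          P t ^ (n - m)).trace).re) t := by
  have hz' : MD (fun t => diagonal (z t)) (diagonal z') t := by
    intro i j
    by_cases hij : i = j
    · subst hij; simpa using hz i
    · simp only [diagonal_apply_ne _ hij]
      exact hasDerivAt_const _ _
  have h := (hz'.mul (hP.pow n)).re_trace
  have e : ((diagonal z' * P t ^ n + diagonal (z t) *
      ∑ m ∈ Finset.range n, P t ^ m * (diagonal (z t) * P t) * P t ^ (n - 1 - m)).trace).re =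
      (((diagonal z' * P t ^ n).trace).re +
        ∑ m ∈ Finset.range n, ((diagonal (z t) * P t ^ m * diagonal (z t) *
          P t ^ (n - m)).trace).re) := by
    rw [trace_add, Complex.add_re, Finset.mul_sum, trace_sum, Complex.re_sum]
    congr 1
    refine Finset.sum_congr rfl fun m hm => ?_
    rw [Finset.mem_range] at hm
    congr 2
    rw [Matrix.mul_assoc (P t ^ m), Matrix.mul_assoc (diagonal (z t)) (P t), ← pow_succ']
    rw [show n - 1 - m + 1 = n - m by omega]
    simp only [Matrix.mul_assoc]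
  rw [e] at h
  exact h

/-- the second derivative is nonpositive -/
lemma second_le {E : Matrix ι ι ℂ} (hE : E.IsHermitian) {T z : ι → ℝ} (hT : ∀ j, 0 < T j)
    {n : ℕ} (hn : Even n) :
    ((diagonal (fun j => ((-(n : ℝ) * z j ^ 2 : ℝ) : ℂ)) *
        (diagonal (fun j => (T j : ℂ)) * E) ^ n).trace).re +
      ∑ m ∈ Finset.range n, ((diagonal (fun j => (z j : ℂ)) *
        (diagonal (fun j => (T j : ℂ)) * E) ^ m * diagonal (fun j => (z j : ℂ)) *
        (diagonal (fun j => (T j : ℂ)) * E) ^ (n - m)).trace).re ≤ 0 := by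
  set P := diagonal (fun j => (T j : ℂ)) * E with hPdef
  set X := diagonal (fun j => ((Real.sqrt (T j) : ℝ) : ℂ)) * E *
        diagonal (fun j => ((Real.sqrt (T j) : ℝ) : ℂ)) with hX
  set Z := diagonal (fun j => (z j : ℂ)) with hZ
  have hZh : Z.IsHermitian := by
    rw [hZ]
    refine isHermitian_diagonal_of_self_adjoint _ ?_
    ext j
    exact Complex.conj_ofReal _
  have hSh : (diagonal (fun j => ((Real.sqrt (T j) : ℝ) : ℂ))).IsHermitian := by
    refine isHermitian_diagonal_of_self_adjoint _ ?_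
    ext j
    exact Complex.conj_ofReal _
  have hXh : X.IsHermitian := by
    have := isHermitian_mul_mul_conjTranspose (diagonal (fun j => ((Real.sqrt (T j) : ℝ) : ℂ))) hE
    rwa [hSh.eq] at this
  have h1 : ∀ m ∈ Finset.range n, ((Z * P ^ m * Z * P ^ (n - m)).trace).re ≤
      ((Z * Z * P ^ n).trace).re := by
    intro m hm
    rw [Finset.mem_range] at hm
    have e1 := trace_conj_diag hT E (fun j => (z j : ℂ)) m (n - m)
    have e2 := trace_conj_diag hT E (fun j => (z j : ℂ)) 0 n
    rw [← hPdef, ← hX, ← hZ] at e1 e2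
    rw [pow_zero, pow_zero, Matrix.mul_one] at e2
    rw [e1, e2]
    exact ZXZX_le hXh hZh hn hm.le
  have h2 : ((diagonal (fun j => ((-(n : ℝ) * z j ^ 2 : ℝ) : ℂ)) * P ^ n).trace).re =
      - (n * ((Z * Z * P ^ n).trace).re) := by
    have : diagonal (fun j => ((-(n : ℝ) * z j ^ 2 : ℝ) : ℂ)) = (-(n : ℝ) : ℂ) • (Z * Z) := by
      rw [hZ, diagonal_mul_diagonal, ← diagonal_smul]
      congr 1
      ext j
      simp only [Pi.smul_apply, smul_eq_mul]
      push_cast; ring
    rw [this, Matrix.smul_mul, trace_smul, smul_eq_mul]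
    rw [← Complex.ofReal_neg, Complex.re_ofReal_mul]
    ring
  have h3 := Finset.sum_le_sum h1
  rw [Finset.sum_const, Finset.card_range, nsmul_eq_mul] at h3
  rw [h2]
  linarith

noncomputable def PhiMat (n : ℕ) (E : Matrix ι ι ℂ) (q : ι → ℝ) : Matrix ι ι ℂ :=
  diagonal (fun j => ((q j ^ ((n : ℝ)⁻¹) : ℝ) : ℂ)) * E

noncomputable def Phi (n : ℕ) (E : Matrix ι ι ℂ) (q : ι → ℝ) : ℝ := trn (PhiMat n E q) n

lemma phi_line {E : Matrix ι ι ℂ} (hE : E.IsHermitian) {n : ℕ} (hn : Even n) (hn0 : n ≠ 0)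
    (x y : ι → ℝ) (hx : ∀ j, 0 < x j) (hy : ∀ j, 0 < y j) :
    ConcaveOn ℝ (Set.Icc (0 : ℝ) 1) (fun t => Phi n E (fun j => x j + t * (y j - x j))) := by
  have hn' : (0 : ℝ) < n := by exact_mod_cast Nat.pos_of_ne_zero hn0
  have hq : ∀ t ∈ Set.Icc (0 : ℝ) 1, ∀ j, 0 < x j + t * (y j - x j) := by
    intro t ht j
    have : x j + t * (y j - x j) = (1 - t) * x j + t * y j := by ring
    rw [this]
    rcases eq_or_lt_of_le ht.1 with h | h
    · rw [← h]; simpa using hx j
    · have h1 := mul_pos h (hy j)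
      have h2 := mul_nonneg (sub_nonneg.mpr ht.2) (hx j).le
      linarith
  set z : ℝ → ι → ℝ := fun t j => (y j - x j) / (n * (x j + t * (y j - x j))) with hz
  have hP : ∀ t ∈ Set.Icc (0 : ℝ) 1, MD (fun t => PhiMat n E (fun j => x j + t * (y j - x j)))
      (diagonal (fun j => (z t j : ℂ)) * PhiMat n E (fun j => x j + t * (y j - x j))) t := by
    intro t ht i j
    simp only [PhiMat, diagonal_mul]
    have h1 : HasDerivAt (fun t => x i + t * (y i - x i)) (y i - x i) t := by
      simpa using ((hasDerivAt_id t).mul_const (y i - x i)).const_add (x i)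
    have h2 : HasDerivAt (fun t => (x i + t * (y i - x i)) ^ ((n : ℝ)⁻¹))
        (z t i * (x i + t * (y i - x i)) ^ ((n : ℝ)⁻¹)) t := by
      have h3 := h1.rpow_const (p := (n : ℝ)⁻¹) (Or.inl (hq t ht i).ne')
      refine h3.congr_deriv ?_
      rw [Real.rpow_sub_one (hq t ht i).ne', hz]
      have := (hq t ht i).ne'
      field_simp
    have h4 := (h2.ofReal_comp).mul_const (E i j)
    refine h4.congr_deriv ?_
    push_cast
    ring
  have hz' : ∀ t ∈ Set.Icc (0 : ℝ) 1, ∀ j, HasDerivAt (fun t => ((z t j : ℝ) : ℂ))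
      ((-(n : ℝ) * z t j ^ 2 : ℝ) : ℂ) t := by
    intro t ht j
    have h1 : HasDerivAt (fun t => n * (x j + t * (y j - x j))) (n * (y j - x j)) t := by
      simpa using (((hasDerivAt_id t).mul_const (y j - x j)).const_add (x j)).const_mul (n : ℝ)
    have hne : (n : ℝ) * (x j + t * (y j - x j)) ≠ 0 := (mul_pos hn' (hq t ht j)).ne'
    have h2 := (h1.inv hne).const_mul (y j - x j)
    have h3 : HasDerivAt (fun t => z t j) (-(n : ℝ) * z t j ^ 2) t := by
      refine (h2.congr_deriv ?_).congr_of_eventuallyEq ?_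
      · rw [hz]; field_simp
      · refine Filter.Eventually.of_forall fun t => ?_
        simp only [hz, Pi.inv_apply, div_eq_mul_inv]
    exact h3.ofReal_comp
  have hD1 : ∀ t ∈ Set.Icc (0 : ℝ) 1, HasDerivAt
      (fun t => Phi n E (fun j => x j + t * (y j - x j)))
      (n * ((diagonal (fun j => (z t j : ℂ)) *
        PhiMat n E (fun j => x j + t * (y j - x j)) ^ n).trace).re) t := fun t ht =>
    hasDerivAt_trn (hP t ht) n
  have hD2 : ∀ t ∈ Set.Icc (0 : ℝ) 1, HasDerivAt
      (fun t => (n : ℝ) * ((diagonal (fun j => (z t j : ℂ)) *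
        PhiMat n E (fun j => x j + t * (y j - x j)) ^ n).trace).re) _ t := fun t ht =>
    (hasDerivAt_tr_z (z := fun t j => (z t j : ℂ)) (hP t ht) (hz' t ht) n).const_mul (n : ℝ)
  refine concaveOn_of_hasDerivWithinAt2_nonpos (convex_Icc 0 1) ?_ ?_ ?_ ?_
    (f' := fun t => (n : ℝ) * ((diagonal (fun j => (z t j : ℂ)) *
        PhiMat n E (fun j => x j + t * (y j - x j)) ^ n).trace).re)
    (f'' := fun t => (n : ℝ) * (((diagonal (fun j => ((-(n : ℝ) * z t j ^ 2 : ℝ) : ℂ)) *
        PhiMat n E (fun j => x j + t * (y j - x j)) ^ n).trace).re +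
        ∑ m ∈ Finset.range n, ((diagonal (fun j => (z t j : ℂ)) *
          PhiMat n E (fun j => x j + t * (y j - x j)) ^ m * diagonal (fun j => (z t j : ℂ)) *
          PhiMat n E (fun j => x j + t * (y j - x j)) ^ (n - m)).trace).re))
  · exact fun t ht => (hD1 t ht).continuousAt.continuousWithinAt
  · exact fun t ht => (hD1 t (interior_subset ht)).hasDerivWithinAt
  · exact fun t ht => (hD2 t (interior_subset ht)).hasDerivWithinAt
  · intro t ht
    refine mul_nonpos_of_nonneg_of_nonpos hn'.le ?_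
    exact second_le hE (T := fun j => (x j + t * (y j - x j)) ^ ((n : ℝ)⁻¹)) (z := z t)
      (fun j => Real.rpow_pos_of_pos (hq t (interior_subset ht) j) _) hn

lemma continuousOn_Phi (n : ℕ) (hn0 : n ≠ 0) (E : Matrix ι ι ℂ) :
    Continuous (fun q : ι → ℝ => Phi n E q) := by
  unfold Phi trn PhiMat
  have hc : ∀ i j, Continuous fun q : ι → ℝ =>
      (diagonal (fun j => ((q j ^ ((n : ℝ)⁻¹) : ℝ) : ℂ)) * E) i j := by
    intro i j
    simp only [diagonal_mul]
    refine Continuous.mul ?_ continuous_const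
    refine Complex.continuous_ofReal.comp ?_
    refine Continuous.rpow_const (continuous_apply i) fun q => Or.inr ?_
    positivity
  have hc2 : Continuous fun q : ι → ℝ => (diagonal (fun j => ((q j ^ ((n : ℝ)⁻¹) : ℝ) : ℂ)) * E) :=
    continuous_matrix hc
  exact Complex.continuous_re.comp (hc2.pow n).matrix_trace

theorem phi_concave {E : Matrix ι ι ℂ} (hE : E.IsHermitian) {n : ℕ} (hn : Even n)
    (hn0 : n ≠ 0) : ConcaveOn ℝ {q : ι → ℝ | ∀ j, 0 ≤ q j} (Phi n E) := by
  refine ⟨?_, ?_⟩
  · intro x hx y hy a b ha hb hab j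
    have := mul_nonneg ha (hx j)
    have := mul_nonneg hb (hy j)
    simp only [Pi.add_apply, Pi.smul_apply, smul_eq_mul]
    linarith
  · intro x hx y hy a b ha hb hab
    have key : ∀ ε : ℝ, 0 < ε → a • Phi n E (fun j => x j + ε) + b • Phi n E (fun j => y j + ε) ≤
        Phi n E (fun j => (a • x + b • y) j + ε) := by
      intro ε hε
      have h := phi_line hE hn hn0 (fun j => x j + ε) (fun j => y j + ε)
        (fun j => by have := hx j; linarith) (fun j => by have := hy j; linarith)
      have h2 := h.2 (x := 0) (y := 1) (by simp) (by simp) ha hb hab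
      simp only [smul_eq_mul, mul_zero, mul_one, zero_add, zero_mul, add_zero, one_mul] at h2
      refine le_trans (le_of_eq ?_) (h2.trans (le_of_eq ?_))
      · simp only [smul_eq_mul]
        congr 3
        ext j; ring
      · congr 1
        ext j
        simp only [Pi.add_apply, Pi.smul_apply, smul_eq_mul]
        have : a = 1 - b := by linarith
        rw [this]; ring
    have hc := continuousOn_Phi n hn0 E
    have l1 : ∀ u : ι → ℝ, Filter.Tendsto (fun ε : ℝ => Phi n E (fun j => u j + ε))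
        (nhdsWithin 0 (Set.Ioi 0)) (nhds (Phi n E u)) := by
      intro u
      have h1 : Continuous fun ε : ℝ => Phi n E (fun j => u j + ε) :=
        hc.comp (continuous_pi fun j => continuous_const.add continuous_id)
      have h2 := h1.tendsto 0
      simp only [add_zero] at h2
      exact h2.mono_left nhdsWithin_le_nhds
    refine le_of_tendsto_of_tendsto (((l1 x).const_smul a).add ((l1 y).const_smul b))
      (l1 (a • x + b • y)) ?_
    filter_upwards [self_mem_nhdsWithin] with ε hε
    exact key ε hε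

end Pool.Agent.Lib_helper33.Renyi
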