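import Mathlib

/-! Spectral helper lemmas for Hermitian matrices. -/

namespace Pool.Agent.Lib_helper33.Renyi

open Matrix

variable {ι : Type} [Fintype ι] [DecidableEq ι]

lemma exists_diag {X : Matrix ι ι ℂ} (hX : X.IsHermitian) :
    ∃ (U : Matrix ι ι ℂ) (l : ι → ℝ), Uᴴ * U = 1 ∧ U * Uᴴ = 1 ∧
      X = U * diagonal (fun i => (l i : ℂ)) * Uᴴ := by
  refine ⟨(hX.eigenvectorUnitary : Matrix ι ι ℂ), hX.eigenvalues, ?_, ?_, ?_⟩
  · have := Unitary.coe_star_mul_self hX.eigenvectorUnitary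
    simpa [star_eq_conjTranspose] using this
  · have := Unitary.coe_mul_star_self hX.eigenvectorUnitary
    simpa [star_eq_conjTranspose] using this
  · conv_lhs => rw [hX.spectral_theorem, Unitary.conjStarAlgAut_apply]
    rfl

lemma pow_diag {U : Matrix ι ι ℂ} (l : ι → ℝ) (h : Uᴴ * U = 1) (h' : U * Uᴴ = 1) (n : ℕ) :
    (U * diagonal (fun i => (l i : ℂ)) * Uᴴ) ^ n =
      U * diagonal (fun i => ((l i : ℂ)) ^ n) * Uᴴ := by
  induction n with
  | zero => simp [h']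
  | succ n ih =>
    rw [pow_succ, ih]
    calc U * diagonal (fun i => ((l i : ℂ)) ^ n) * Uᴴ * (U * diagonal (fun i => (l i : ℂ)) * Uᴴ)
        = U * diagonal (fun i => ((l i : ℂ)) ^ n) * (Uᴴ * U) * diagonal (fun i => (l i : ℂ)) * Uᴴ := by
          simp only [Matrix.mul_assoc]
      _ = U * (diagonal (fun i => ((l i : ℂ)) ^ n) * diagonal (fun i => (l i : ℂ))) * Uᴴ := by
          rw [h]; simp only [Matrix.mul_assoc, Matrix.one_mul]
      _ = _ := by
          rw [diagonal_mul_diagonal]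
          simp only [pow_succ]

lemma trace_pow_diag {U : Matrix ι ι ℂ} (l : ι → ℝ) (h : Uᴴ * U = 1) (h' : U * Uᴴ = 1) (n : ℕ) :
    ((U * diagonal (fun i => (l i : ℂ)) * Uᴴ) ^ n).trace = ((∑ i, l i ^ n : ℝ) : ℂ) := by
  rw [pow_diag l h h', trace_mul_comm, ← Matrix.mul_assoc, h, Matrix.one_mul, trace_diagonal]
  push_cast
  rfl

/-- `tr (Z X^m Z X^k)` in the eigenbasis of `X`. -/
lemma trace_ZXZX {U : Matrix ι ι ℂ} (l : ι → ℝ) (h : Uᴴ * U = 1) (h' : U * Uᴴ = 1)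
    {Z : Matrix ι ι ℂ} (hZ : Z.IsHermitian) (m k : ℕ) :
    (Z * (U * diagonal (fun i => (l i : ℂ)) * Uᴴ) ^ m * Z *
      (U * diagonal (fun i => (l i : ℂ)) * Uᴴ) ^ k).trace =
      ((∑ a, ∑ b, Complex.normSq ((Uᴴ * Z * U) a b) * l a ^ m * l b ^ k : ℝ) : ℂ) := by
  rw [pow_diag l h h', pow_diag l h h']
  set W : Matrix ι ι ℂ := Uᴴ * Z * U with hW
  have hWh : W.IsHermitian := by
    rw [hW]
    exact isHermitian_conjTranspose_mul_mul U hZ
  have e1 : (Z * (U * diagonal (fun i => ((l i : ℂ)) ^ m) * Uᴴ) * Z *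
      (U * diagonal (fun i => ((l i : ℂ)) ^ k) * Uᴴ)).trace =
      (W * diagonal (fun i => ((l i : ℂ)) ^ m) * W * diagonal (fun i => ((l i : ℂ)) ^ k)).trace := by
    rw [hW]
    rw [show Z * (U * diagonal (fun i => ((l i : ℂ)) ^ m) * Uᴴ) * Z *
      (U * diagonal (fun i => ((l i : ℂ)) ^ k) * Uᴴ) =
      (Z * U * diagonal (fun i => ((l i : ℂ)) ^ m) * Uᴴ * Z * U *
        diagonal (fun i => ((l i : ℂ)) ^ k)) * Uᴴ by simp only [Matrix.mul_assoc]]
    rw [trace_mul_comm]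
    simp only [Matrix.mul_assoc]
  have e3 : ∀ b, (W * diagonal (fun i => ((l i : ℂ)) ^ m) * W *
      diagonal (fun i => ((l i : ℂ)) ^ k)) b b =
      ∑ a, W b a * (l a : ℂ) ^ m * W a b * (l b : ℂ) ^ k := by
    intro b
    rw [mul_diagonal, Matrix.mul_apply, Finset.sum_mul]
    refine Finset.sum_congr rfl fun a _ => ?_
    rw [mul_diagonal]
  rw [e1, Matrix.trace]
  simp only [diag_apply, e3]
  rw [Finset.sum_comm]
  push_cast
  refine Finset.sum_congr rfl fun a _ => Finset.sum_congr rfl fun b _ => ?_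
  have e2 : W b a = (starRingEnd ℂ) (W a b) := by
    have := congrFun (congrFun hWh b) a
    rw [conjTranspose_apply] at this
    rw [← this]; rfl
  rw [Complex.normSq_eq_conj_mul_self, e2]
  ring

end Pool.Agent.Lib_helper33.Renyi
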