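import Pool.Agent.Lib_helper33.Renyi.Basic

/-! Correlation Schur multipliers decrease traces of even powers. -/

namespace Pool.Agent.Lib_helper33.Renyi

open Matrix

open scoped ComplexOrder

variable {ι : Type} [Fintype ι] [DecidableEq ι]

omit [DecidableEq ι] in
lemma even_pow_ds (n : ℕ) (hn : Even n) (P : ι → ι → ℝ) (hP : ∀ a m, 0 ≤ P a m)
    (h1 : ∀ a, ∑ m, P a m = 1) (h2 : ∀ m, ∑ a, P a m = 1) (l μ : ι → ℝ)
    (hμ : ∀ a, μ a = ∑ m, P a m * l m) :
    ∑ a, μ a ^ n ≤ ∑ m, l m ^ n := by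
  have h3 : ∀ a, μ a ^ n ≤ ∑ m, P a m * l m ^ n := by
    intro a
    rw [hμ a]
    have := (Even.convexOn_pow hn (𝕜 := ℝ)).map_sum_le (t := Finset.univ) (w := P a) (p := l)
      (fun i _ => hP a i) (h1 a) (fun i _ => Set.mem_univ _)
    simpa [smul_eq_mul] using this
  calc ∑ a, μ a ^ n ≤ ∑ a, ∑ m, P a m * l m ^ n := Finset.sum_le_sum fun a _ => h3 a
    _ = ∑ m, (∑ a, P a m) * l m ^ n := by
        rw [Finset.sum_comm]
        exact Finset.sum_congr rfl fun m _ => by rw [Finset.sum_mul]
    _ = _ := by simp [h2]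

omit [Fintype ι] [DecidableEq ι] in
lemma mul_conjTranspose_diag_apply {κ : Type} [Fintype κ] (G : Matrix κ ι ℂ) (a : ι) :
    (Gᴴ * G) a a = ((∑ m, Complex.normSq (G m a) : ℝ) : ℂ) := by
  rw [Matrix.mul_apply]
  push_cast
  refine Finset.sum_congr rfl fun m _ => ?_
  rw [conjTranspose_apply, Complex.normSq_eq_conj_mul_self]
  rfl

lemma exists_factor {C : Matrix ι ι ℂ} (hC : C.PosSemidef) : ∃ B : Matrix ι ι ℂ, C = Bᴴ * B := by
  have h0 := hC.eigenvalues_nonneg
  set U : Matrix ι ι ℂ := (hC.isHermitian.eigenvectorUnitary : Matrix ι ι ℂ) with hU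
  set l := hC.isHermitian.eigenvalues with hl
  have hCU : C = U * diagonal (fun i => (l i : ℂ)) * Uᴴ := by
    conv_lhs => rw [hC.isHermitian.spectral_theorem, Unitary.conjStarAlgAut_apply]
    rfl
  refine ⟨diagonal (fun i => ((Real.sqrt (l i) : ℝ) : ℂ)) * Uᴴ, ?_⟩
  rw [conjTranspose_mul, conjTranspose_conjTranspose, diagonal_conjTranspose]
  conv_lhs => rw [hCU]
  have : (diagonal fun i => (l i : ℂ)) = diagonal (star fun i => ((Real.sqrt (l i) : ℝ) : ℂ)) *
      diagonal (fun i => ((Real.sqrt (l i) : ℝ) : ℂ)) := by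
    rw [diagonal_mul_diagonal]
    congr 1
    ext i
    simp only [Pi.star_apply]
    rw [show star ((Real.sqrt (l i) : ℝ) : ℂ) = ((Real.sqrt (l i) : ℝ) : ℂ) from
      Complex.conj_ofReal _]
    rw [← Complex.ofReal_mul, Real.mul_self_sqrt (h0 i)]
  rw [this]
  simp only [Matrix.mul_assoc]

/-- Schur multiplication by a correlation matrix does not increase the trace of an even power. -/
theorem trace_pow_hadamard_le {C X : Matrix ι ι ℂ} (hC : C.PosSemidef) (hd : ∀ i, C i i = 1)
    (hX : X.IsHermitian) {n : ℕ} (hn : Even n) :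
    (((C ⊙ X) ^ n).trace).re ≤ ((X ^ n).trace).re := by
  obtain ⟨B, hB⟩ := exists_factor hC
  have hCX : (C ⊙ X).IsHermitian := by
    ext i j
    simp only [conjTranspose_apply, hadamard_apply, star_mul']
    rw [← conjTranspose_apply, ← conjTranspose_apply, hC.isHermitian, hX]
  obtain ⟨U, l, hU, hU', hXU⟩ := exists_diag hX
  obtain ⟨V, μ, hV, hV', hYV⟩ := exists_diag hCX
  set D : ι → Matrix ι ι ℂ := fun k => diagonal (fun j => B k j) with hD
  have hDsum : C ⊙ X = ∑ k, (D k)ᴴ * X * D k := by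
    ext i j
    rw [hadamard_apply, Matrix.sum_apply, hB, Matrix.mul_apply, Finset.sum_mul]
    refine Finset.sum_congr rfl fun k _ => ?_
    rw [hD]
    simp only [diagonal_conjTranspose, mul_diagonal, diagonal_mul, conjTranspose_apply,
      Pi.star_apply]
    ring
  have hC1 : ∀ i, ∑ k, star (B k i) * B k i = 1 := by
    intro i
    have := hd i
    rw [hB, Matrix.mul_apply] at this
    simpa [conjTranspose_apply] using this
  have hDD : ∑ k, (D k)ᴴ * D k = 1 := by
    ext i j
    rw [Matrix.sum_apply, hD]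
    simp only [diagonal_conjTranspose, diagonal_mul_diagonal, diagonal_apply, one_apply,
      Pi.star_apply]
    by_cases hij : i = j
    · subst hij; simpa using hC1 i
    · simp [hij]
  have hDD' : ∑ k, D k * (D k)ᴴ = 1 := by
    rw [← hDD]
    refine Finset.sum_congr rfl fun k _ => ?_
    rw [hD]
    simp only [diagonal_conjTranspose, diagonal_mul_diagonal]
    congr 1
    ext i
    simp [mul_comm]
  set G : ι → Matrix ι ι ℂ := fun k => Uᴴ * D k * V with hG
  set P : ι → ι → ℝ := fun a m => ∑ k, Complex.normSq (G k m a) with hP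
  have hP0 : ∀ a m, 0 ≤ P a m := fun a m => Finset.sum_nonneg fun k _ => Complex.normSq_nonneg _
  have hP1 : ∀ a, ∑ m, P a m = 1 := by
    intro a
    have h1 : ((∑ m, P a m : ℝ) : ℂ) = 1 := by
      have : ((∑ m, P a m : ℝ) : ℂ) = (∑ k, (G k)ᴴ * G k) a a := by
        rw [Matrix.sum_apply, hP]
        simp only
        rw [Finset.sum_comm]
        push_cast
        refine Finset.sum_congr rfl fun k _ => ?_
        rw [mul_conjTranspose_diag_apply]
        push_cast; rfl
      rw [this]
      have h2 : ∀ k, (G k)ᴴ * G k = Vᴴ * ((D k)ᴴ * D k) * V := by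
        intro k
        rw [hG]
        simp only [conjTranspose_mul, conjTranspose_conjTranspose]
        calc Vᴴ * ((D k)ᴴ * U) * (Uᴴ * D k * V) = Vᴴ * (D k)ᴴ * (U * Uᴴ) * D k * V := by
              simp only [Matrix.mul_assoc]
          _ = _ := by rw [hU']; simp only [Matrix.mul_assoc, Matrix.one_mul]
      rw [Finset.sum_congr rfl (fun k _ => h2 k), ← Finset.sum_mul, ← Finset.mul_sum, hDD,
        Matrix.mul_one, hV, one_apply_eq]
    exact_mod_cast h1
  have hP2 : ∀ m, ∑ a, P a m = 1 := by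
    intro m
    have h1 : ((∑ a, P a m : ℝ) : ℂ) = 1 := by
      have : ((∑ a, P a m : ℝ) : ℂ) = (∑ k, G k * (G k)ᴴ) m m := by
        rw [Matrix.sum_apply, hP]
        simp only
        rw [Finset.sum_comm]
        push_cast
        refine Finset.sum_congr rfl fun k _ => ?_
        rw [Matrix.mul_apply]
        refine Finset.sum_congr rfl fun a _ => ?_
        rw [conjTranspose_apply, Complex.normSq_eq_conj_mul_self, mul_comm]
        rfl
      rw [this]
      have h2 : ∀ k, G k * (G k)ᴴ = Uᴴ * (D k * (D k)ᴴ) * U := by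
        intro k
        rw [hG]
        simp only [conjTranspose_mul, conjTranspose_conjTranspose]
        calc Uᴴ * D k * V * (Vᴴ * ((D k)ᴴ * U)) = Uᴴ * D k * (V * Vᴴ) * (D k)ᴴ * U := by
              simp only [Matrix.mul_assoc]
          _ = _ := by rw [hV']; simp only [Matrix.mul_assoc, Matrix.one_mul]
      rw [Finset.sum_congr rfl (fun k _ => h2 k), ← Finset.sum_mul, ← Finset.mul_sum, hDD',
        Matrix.mul_one, hU, one_apply_eq]
    exact_mod_cast h1
  have hμ : ∀ a, μ a = ∑ m, P a m * l m := by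
    intro a
    have h1 : (μ a : ℂ) = (Vᴴ * (C ⊙ X) * V) a a := by
      conv_rhs => rw [hYV]
      have : Vᴴ * (V * diagonal (fun i => (μ i : ℂ)) * Vᴴ) * V =
          (Vᴴ * V) * diagonal (fun i => (μ i : ℂ)) * (Vᴴ * V) := by
        simp only [Matrix.mul_assoc]
      rw [this, hV, Matrix.one_mul, Matrix.mul_one, diagonal_apply_eq]
    have h2 : Vᴴ * (C ⊙ X) * V = ∑ k, (G k)ᴴ * diagonal (fun i => (l i : ℂ)) * G k := by
      rw [hDsum, Finset.mul_sum, Finset.sum_mul]
      refine Finset.sum_congr rfl fun k _ => ?_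
      rw [hXU, hG]
      simp only [conjTranspose_mul, conjTranspose_conjTranspose, Matrix.mul_assoc]
    have h3 : (μ a : ℂ) = ((∑ m, P a m * l m : ℝ) : ℂ) := by
      rw [h1, h2, Matrix.sum_apply, hP]
      push_cast
      simp only [Finset.sum_mul]
      rw [Finset.sum_comm]
      refine Finset.sum_congr rfl fun k _ => ?_
      rw [Matrix.mul_apply]
      refine Finset.sum_congr rfl fun m _ => ?_
      rw [mul_diagonal, conjTranspose_apply, Complex.normSq_eq_conj_mul_self]
      have : (star (G k m a) : ℂ) = (starRingEnd ℂ) (G k m a) := rfl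
      rw [this]
      ring
    exact_mod_cast h3
  have e1 : (((C ⊙ X) ^ n).trace).re = ∑ a, μ a ^ n := by
    rw [hYV, trace_pow_diag μ hV hV', Complex.ofReal_re]
  have e2 : ((X ^ n).trace).re = ∑ a, l a ^ n := by
    rw [hXU, trace_pow_diag l hU hU', Complex.ofReal_re]
  rw [e1, e2]
  exact even_pow_ds n hn P hP0 hP1 hP2 l μ hμ

end Pool.Agent.Lib_helper33.Renyi
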