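import Pool.Agent.Lib_helper33.Renyi.Schur
import Pool.Agent.Lib_helper33.Renyi.Defs

/-! The Szegö kernel Schur multiplier and the 2x2 pseudo-unitary diagonalisation. -/

namespace Pool.Agent.Lib_helper33.Renyi

open Matrix

open scoped ComplexOrder

variable {κ : Type} [Fintype κ] [DecidableEq κ]

omit [DecidableEq κ] in
/-- If every entry of `C` is a convergent sum of `conj (g k i) * g k j` then `C` is PSD. -/
lemma posSemidef_of_hasSum {C : Matrix κ κ ℂ} (g : ℕ → κ → ℂ)
    (h : ∀ i j, HasSum (fun k => (starRingEnd ℂ) (g k i) * g k j) (C i j)) : C.PosSemidef := by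
  refine Matrix.PosSemidef.of_dotProduct_mulVec_nonneg ?_ ?_
  · ext i j
    rw [conjTranspose_apply]
    have h1 := (h j i).star
    have h2 := h i j
    refine h1.unique ?_
    convert h2 using 2 with k
    simp [mul_comm]
  · intro x
    have h1 : HasSum (fun k => ((Complex.normSq (∑ j, g k j * x j) : ℝ) : ℂ))
        (star x ⬝ᵥ (C *ᵥ x)) := by
      have h2 : HasSum (fun k => ∑ i, ∑ j, star (x i) * ((starRingEnd ℂ) (g k i) * g k j) * x j)
          (∑ i, ∑ j, star (x i) * C i j * x j) :=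
        hasSum_sum fun i _ => hasSum_sum fun j _ => ((h i j).mul_left _).mul_right _
      convert h2 using 1
      · ext k
        rw [Complex.normSq_eq_conj_mul_self, map_sum, Finset.sum_mul_sum]
        refine Finset.sum_congr rfl fun i _ => Finset.sum_congr rfl fun j _ => ?_
        rw [map_mul]
        simp only [Complex.star_def]
        ring
      · simp only [dotProduct, mulVec, Pi.star_apply, Finset.mul_sum]
        refine Finset.sum_congr rfl fun i _ => Finset.sum_congr rfl fun j _ => ?_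
        ring
    have h3 := Complex.hasSum_iff _ _ |>.mp h1
    have hre : 0 ≤ (star x ⬝ᵥ (C *ᵥ x)).re := by
      refine h3.1.nonneg fun k => ?_
      simp only [Complex.ofReal_re]
      exact Complex.normSq_nonneg _
    have him : (star x ⬝ᵥ (C *ᵥ x)).im = 0 := by
      have h4 := h3.2
      simp only [Complex.ofReal_im] at h4
      exact h4.unique hasSum_zero
    rw [Complex.nonneg_iff]
    exact ⟨hre, him.symm⟩

/-- the Szegö multiplier -/
noncomputable def szego (p r : κ → ℂ) (lam : κ → ℝ) : Matrix κ κ ℂ :=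
  Matrix.of fun i j =>
    (if 0 < lam i ∧ 0 < lam j then
      ((Real.sqrt (lam i) * Real.sqrt (lam j) : ℝ) : ℂ) /
        ((starRingEnd ℂ) (p i) * p j - (starRingEnd ℂ) (r i) * r j)
    else if i = j then 1 else 0)

lemma szego_aux {p q r t : ℂ} (h1 : ‖r‖ < ‖p‖) (h2 : ‖t‖ < ‖q‖) :
    HasSum (fun k : ℕ => ((starRingEnd ℂ) ((r / p) ^ k / p)) * ((t / q) ^ k / q))
      (((starRingEnd ℂ) p * q - (starRingEnd ℂ) r * t)⁻¹) := by
  have hp : p ≠ 0 := by
    intro h; rw [h, norm_zero] at h1; exact absurd h1 (not_lt.mpr (norm_nonneg _))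
  have hq : q ≠ 0 := by
    intro h; rw [h, norm_zero] at h2; exact absurd h2 (not_lt.mpr (norm_nonneg _))
  have hcp : (starRingEnd ℂ) p ≠ 0 := by simpa using hp
  have hlt : ‖(starRingEnd ℂ) (r / p) * (t / q)‖ < 1 := by
    rw [norm_mul, RCLike.norm_conj, norm_div, norm_div]
    have a1 : ‖r‖ / ‖p‖ < 1 := (div_lt_one (norm_pos_iff.mpr hp)).mpr h1
    have a2 : ‖t‖ / ‖q‖ < 1 := (div_lt_one (norm_pos_iff.mpr hq)).mpr h2
    have a3 : 0 ≤ ‖r‖ / ‖p‖ := by positivity
    have a4 : 0 ≤ ‖t‖ / ‖q‖ := by positivity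
    nlinarith
  have h := (hasSum_geometric_of_norm_lt_one hlt).mul_left (((starRingEnd ℂ) p * q)⁻¹)
  have hne : (starRingEnd ℂ) p * q - (starRingEnd ℂ) r * t ≠ 0 := by
    intro h0
    have : ‖(starRingEnd ℂ) p * q‖ = ‖(starRingEnd ℂ) r * t‖ := by
      rw [sub_eq_zero.mp h0]
    rw [norm_mul, norm_mul, RCLike.norm_conj, RCLike.norm_conj] at this
    have b1 : ‖r‖ * ‖t‖ < ‖p‖ * ‖q‖ :=
      mul_lt_mul'' h1 h2 (norm_nonneg _) (norm_nonneg _)
    linarith
  have hf : (fun k : ℕ => ((starRingEnd ℂ) ((r / p) ^ k / p)) * ((t / q) ^ k / q)) =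
      fun k => ((starRingEnd ℂ) p * q)⁻¹ * ((starRingEnd ℂ) (r / p) * (t / q)) ^ k := by
    ext k
    rw [map_div₀, map_pow, map_div₀, mul_pow, div_pow, div_pow]
    field_simp
  have hv : ((starRingEnd ℂ) p * q - (starRingEnd ℂ) r * t)⁻¹ =
      ((starRingEnd ℂ) p * q)⁻¹ * (1 - (starRingEnd ℂ) (r / p) * (t / q))⁻¹ := by
    rw [← mul_inv]
    congr 1
    rw [map_div₀]
    field_simp
  rw [hf, hv]
  exact h

lemma szego_posSemidef (p r : κ → ℂ) (lam : κ → ℝ) 
    (h : ∀ j, Complex.normSq (p j) - Complex.normSq (r j) = lam j) :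
    (szego p r lam).PosSemidef := by
  have hnorm : ∀ j, 0 < lam j → ‖r j‖ < ‖p j‖ := by
    intro j hj
    have := h j
    rw [Complex.normSq_eq_norm_sq, Complex.normSq_eq_norm_sq] at this
    have h2 : ‖r j‖ ^ 2 < ‖p j‖ ^ 2 := by linarith
    exact lt_of_pow_lt_pow_left₀ 2 (norm_nonneg _) h2
  have e : szego p r lam = (Matrix.of fun i j =>
      (if 0 < lam i ∧ 0 < lam j then
      ((Real.sqrt (lam i) * Real.sqrt (lam j) : ℝ) : ℂ) /
        ((starRingEnd ℂ) (p i) * p j - (starRingEnd ℂ) (r i) * r j) else 0)) +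
      diagonal (fun j => if 0 < lam j then (0 : ℂ) else 1) := by
    ext i j
    simp only [szego, Matrix.of_apply, Matrix.add_apply, diagonal_apply]
    by_cases hij : i = j
    · subst hij
      by_cases hi : 0 < lam i <;> simp [hi]
    · by_cases hi : 0 < lam i <;> by_cases hj : 0 < lam j <;> simp [hi, hj, hij]
  rw [e]
  refine PosSemidef.add ?_ ?_
  · refine posSemidef_of_hasSum
      (fun k j => if 0 < lam j then (Real.sqrt (lam j) : ℂ) * ((r j / p j) ^ k / p j) else 0) ?_
    intro i j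
    simp only [Matrix.of_apply]
    by_cases hi : 0 < lam i
    · by_cases hj : 0 < lam j
      · simp only [hi, hj, and_self, if_true]
        have h1 := (szego_aux (hnorm i hi) (hnorm j hj)).mul_left
          ((Real.sqrt (lam i) * Real.sqrt (lam j) : ℝ) : ℂ)
        have hf : (fun k : ℕ => (starRingEnd ℂ) ((Real.sqrt (lam i) : ℂ) * ((r i / p i) ^ k / p i)) *
            ((Real.sqrt (lam j) : ℂ) * ((r j / p j) ^ k / p j))) = fun k =>
            ((Real.sqrt (lam i) * Real.sqrt (lam j) : ℝ) : ℂ) *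
            ((starRingEnd ℂ) ((r i / p i) ^ k / p i) * ((r j / p j) ^ k / p j)) := by
          ext k
          rw [map_mul, Complex.conj_ofReal]
          push_cast
          ring
        rw [hf, div_eq_mul_inv]
        exact h1
      · simp only [hj, and_false, if_false, mul_zero]
        exact hasSum_zero
    · simp only [hi, false_and, if_false, map_zero, zero_mul]
      exact hasSum_zero
  · rw [posSemidef_diagonal_iff]
    intro j
    split_ifs
    · exact le_refl _
    · exact zero_le_one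

omit [Fintype κ] in
lemma szego_diag (p r : κ → ℂ) (lam : κ → ℝ)
    (h : ∀ j, Complex.normSq (p j) - Complex.normSq (r j) = lam j) (j : κ) :
    szego p r lam j j = 1 := by
  simp only [szego, Matrix.of_apply, and_self, if_true]
  split_ifs with hj
  · have h1 : (starRingEnd ℂ) (p j) * p j - (starRingEnd ℂ) (r j) * r j = (lam j : ℂ) := by
      rw [← Complex.normSq_eq_conj_mul_self, ← Complex.normSq_eq_conj_mul_self, ← h j]
      push_cast; ring
    rw [h1, Real.mul_self_sqrt hj.le]
    exact div_self (by exact_mod_cast hj.ne')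
  · rfl

omit [Fintype κ] in
lemma szego_mul (p r : κ → ℂ) (lam : κ → ℝ) (hl : ∀ j, 0 ≤ lam j)
    (h : ∀ j, Complex.normSq (p j) - Complex.normSq (r j) = lam j) (i j : κ) :
    szego p r lam i j * ((starRingEnd ℂ) (p i) * p j - (starRingEnd ℂ) (r i) * r j) =
      ((Real.sqrt (lam i) * Real.sqrt (lam j) : ℝ) : ℂ) := by
  have hnorm : ∀ j, 0 < lam j → ‖r j‖ < ‖p j‖ := by
    intro j hj
    have := h j
    rw [Complex.normSq_eq_norm_sq, Complex.normSq_eq_norm_sq] at this
    have h2 : ‖r j‖ ^ 2 < ‖p j‖ ^ 2 := by linarith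
    exact lt_of_pow_lt_pow_left₀ 2 (norm_nonneg _) h2
  simp only [szego, Matrix.of_apply]
  by_cases hij : 0 < lam i ∧ 0 < lam j
  · rw [if_pos hij]
    have hne : (starRingEnd ℂ) (p i) * p j - (starRingEnd ℂ) (r i) * r j ≠ 0 := by
      intro h0
      have : ‖(starRingEnd ℂ) (p i) * p j‖ = ‖(starRingEnd ℂ) (r i) * r j‖ := by
        rw [sub_eq_zero.mp h0]
      rw [norm_mul, norm_mul, RCLike.norm_conj, RCLike.norm_conj] at this
      have b1 : ‖r i‖ * ‖r j‖ < ‖p i‖ * ‖p j‖ :=
        mul_lt_mul'' (hnorm i hij.1) (hnorm j hij.2) (norm_nonneg _) (norm_nonneg _)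
      linarith
    exact div_mul_cancel₀ _ hne
  · rw [if_neg hij]
    have hz : Real.sqrt (lam i) * Real.sqrt (lam j) = 0 := by
      rcases not_and_or.mp hij with h1 | h1
      · rw [Real.sqrt_eq_zero'.mpr (not_lt.mp h1), zero_mul]
      · rw [Real.sqrt_eq_zero'.mpr (not_lt.mp h1), mul_zero]
    rw [hz]
    by_cases hij2 : i = j
    · subst hij2
      have h1 : (starRingEnd ℂ) (p i) * p i - (starRingEnd ℂ) (r i) * r i = (lam i : ℂ) := by
        rw [← Complex.normSq_eq_conj_mul_self, ← Complex.normSq_eq_conj_mul_self, ← h i]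
        push_cast; ring
      have h2 : lam i = 0 := by
        have := hl i
        rw [and_self] at hij
        exact le_antisymm (not_lt.mp hij) this
      rw [h1, h2]; simp
    · rw [if_neg hij2]; simp

/-! ### 2x2 pseudo-unitary diagonalisation -/

noncomputable def disc (al ga nb : ℝ) : ℝ := (al + ga) ^ 2 - 4 * nb

/-- positive eigenvalue -/
noncomputable def lpos (al ga nb : ℝ) : ℝ := ((al - ga) + Real.sqrt (disc al ga nb)) / 2

lemma disc_nonneg {al ga nb : ℝ} (h : nb ≤ al * ga) : 0 ≤ disc al ga nb := by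
  unfold disc
  nlinarith [sq_nonneg (al - ga)]

lemma disc_symm (al ga nb : ℝ) : disc ga al nb = disc al ga nb := by
  unfold disc; ring

lemma lpos_sub (al ga nb : ℝ) : lpos al ga nb - lpos ga al nb = al - ga := by
  unfold lpos
  rw [disc_symm al ga nb]; ring

lemma lpos_mul {al ga nb : ℝ} (h : nb ≤ al * ga) :
    lpos al ga nb * lpos ga al nb = al * ga - nb := by
  have h1 := Real.mul_self_sqrt (disc_nonneg h)
  unfold lpos
  rw [disc_symm al ga nb]
  have : (al - ga + √(disc al ga nb)) / 2 * ((ga - al + √(disc al ga nb)) / 2) =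
      (√(disc al ga nb) * √(disc al ga nb) - (al - ga) ^ 2) / 4 := by ring
  rw [this, h1]
  unfold disc
  ring

lemma lpos_nonneg {al ga nb : ℝ} (h : nb ≤ al * ga) : 0 ≤ lpos al ga nb := by
  have h1 := lpos_mul h
  have h2 : 0 ≤ lpos al ga nb + lpos ga al nb := by
    unfold lpos
    rw [disc_symm al ga nb]
    have := Real.sqrt_nonneg (disc al ga nb)
    linarith
  by_contra hneg
  push Not at hneg
  have h3 : 0 < lpos ga al nb := by linarith
  have h4 := mul_neg_of_neg_of_pos hneg h3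
  linarith

/-- the 2x2 signature matrix -/
def J2 : Matrix (Fin 2) (Fin 2) ℂ := !![1, 0; 0, -1]

lemma exists_m2 (al ga : ℝ) (be : ℂ) (hal : 0 ≤ al) (hga : 0 ≤ ga)
    (hb : Complex.normSq be ≤ al * ga) :
    ∃ m : Matrix (Fin 2) (Fin 2) ℂ, m * mᴴ = !![(al : ℂ), be; (starRingEnd ℂ) be, (ga : ℂ)] ∧
      mᴴ * J2 * m = !![(lpos al ga (Complex.normSq be) : ℂ), 0;
        0, -(lpos ga al (Complex.normSq be) : ℂ)] := by
  set nb := Complex.normSq be with hnb
  set R : Matrix (Fin 2) (Fin 2) ℂ := !![(al : ℂ), be; (starRingEnd ℂ) be, (ga : ℂ)] with hR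
  -- R is PSD
  have hRp : ∃ B : Matrix (Fin 2) (Fin 2) ℂ, R = B * Bᴴ := by
    rcases eq_or_lt_of_le hal with h0 | h0
    · -- al = 0, so be = 0
      have hbe : be = 0 := by
        have : Complex.normSq be ≤ 0 := by rw [← h0] at hb; simpa using hb
        exact Complex.normSq_eq_zero.mp (le_antisymm this (Complex.normSq_nonneg _))
      refine ⟨!![0, 0; 0, ((Real.sqrt ga : ℝ) : ℂ)], ?_⟩
      rw [hR, ← h0, hbe]
      ext i j
      fin_cases i <;> fin_cases j <;>
        simp [Matrix.mul_apply, Fin.sum_univ_two, conjTranspose_apply]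
      rw [← Complex.ofReal_mul, Real.mul_self_sqrt hga]
    · refine ⟨!![((Real.sqrt al : ℝ) : ℂ), 0; (starRingEnd ℂ) be / ((Real.sqrt al : ℝ) : ℂ),
        ((Real.sqrt (ga - nb / al) : ℝ) : ℂ)], ?_⟩
      have hs : ((Real.sqrt al : ℝ) : ℂ) ≠ 0 := by
        exact_mod_cast (Real.sqrt_pos.mpr h0).ne'
      have hs2 : ((Real.sqrt al : ℝ) : ℂ) * ((Real.sqrt al : ℝ) : ℂ) = (al : ℂ) := by
        rw [← Complex.ofReal_mul, Real.mul_self_sqrt hal]
      have hg : 0 ≤ ga - nb / al := by
        rw [sub_nonneg, div_le_iff₀ h0]; linarith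
      rw [hR]
      ext i j
      fin_cases i <;> fin_cases j <;>
        simp [Matrix.mul_apply, Fin.sum_univ_two, conjTranspose_apply]
      · rw [hs2]
      · rw [mul_div_cancel₀ _ hs]
      · field_simp
      · rw [← Complex.ofReal_mul, Real.mul_self_sqrt hg]
        have h1 : (starRingEnd ℂ) be / ((Real.sqrt al : ℝ) : ℂ) *
            (be / ((Real.sqrt al : ℝ) : ℂ)) = (nb / al : ℝ) := by
          rw [div_mul_div_comm, hs2, ← Complex.normSq_eq_conj_mul_self]
          push_cast; rfl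
        rw [h1]
        push_cast; ring
  obtain ⟨B, hB⟩ := hRp
  have hJ : J2.IsHermitian := by
    unfold J2
    ext i j
    fin_cases i <;> fin_cases j <;> simp [conjTranspose_apply]
  have hK : (Bᴴ * J2 * B).IsHermitian := isHermitian_conjTranspose_mul_mul B hJ
  obtain ⟨V, μ, hV, hV', hKV⟩ := exists_diag hK
  have hm1 : (B * V) * (B * V)ᴴ = R := by
    rw [conjTranspose_mul, hB]
    calc B * V * (Vᴴ * Bᴴ) = B * (V * Vᴴ) * Bᴴ := by simp only [Matrix.mul_assoc]
      _ = _ := by rw [hV', Matrix.mul_one]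
  have hm2 : (B * V)ᴴ * J2 * (B * V) = diagonal (fun i => (μ i : ℂ)) := by
    rw [conjTranspose_mul]
    calc Vᴴ * Bᴴ * J2 * (B * V) = Vᴴ * (Bᴴ * J2 * B) * V := by simp only [Matrix.mul_assoc]
      _ = (Vᴴ * V) * diagonal (fun i => (μ i : ℂ)) * (Vᴴ * V) := by
          rw [hKV]; simp only [Matrix.mul_assoc]
      _ = _ := by rw [hV, Matrix.one_mul, Matrix.mul_one]
  -- trace and determinant
  have htr : (μ 0 : ℂ) + μ 1 = al - ga := by
    have h1 : ((B * V)ᴴ * J2 * (B * V)).trace = (μ 0 : ℂ) + μ 1 := by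
      rw [hm2, trace_diagonal, Fin.sum_univ_two]
    have h2 : ((B * V)ᴴ * J2 * (B * V)).trace = (R * J2).trace := by
      rw [trace_mul_comm, ← Matrix.mul_assoc, hm1]
    rw [← h1, h2, hR]
    simp [J2, Matrix.trace, Matrix.mul_apply, Fin.sum_univ_two]
    ring
  have hdet : (μ 0 : ℂ) * μ 1 = -(al * ga - nb) := by
    have h1 : ((B * V)ᴴ * J2 * (B * V)).det = (μ 0 : ℂ) * μ 1 := by
      rw [hm2, det_diagonal, Fin.prod_univ_two]
    have h2 : ((B * V)ᴴ * J2 * (B * V)).det = R.det * J2.det := by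
      rw [← hm1]
      simp only [det_mul]
      ring
    rw [← h1, h2, hR]
    simp only [J2, det_fin_two_of]
    rw [Complex.mul_conj]
    ring
  have htr' : μ 0 + μ 1 = al - ga := by exact_mod_cast htr
  have hdet' : μ 0 * μ 1 = -(al * ga - nb) := by exact_mod_cast hdet
  have hp := lpos_mul hb
  have hsub := lpos_sub al ga nb
  have hfac : (μ 0 - lpos al ga nb) * (μ 0 + lpos ga al nb) = 0 := by
    have e1 : μ 1 = al - ga - μ 0 := by linarith
    have e2 : μ 0 * (al - ga - μ 0) = -(al * ga - nb) := by rw [← e1]; exact hdet'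
    have e3 : (μ 0 - lpos al ga nb) * (μ 0 + lpos ga al nb) =
        μ 0 * μ 0 - μ 0 * (lpos al ga nb - lpos ga al nb) - lpos al ga nb * lpos ga al nb := by
      ring
    rw [e3, hsub, hp]
    linarith
  rcases mul_eq_zero.mp hfac with h1 | h1
  · have e0 : μ 0 = lpos al ga nb := by linarith
    have e1 : μ 1 = - lpos ga al nb := by linarith
    refine ⟨B * V, hm1, ?_⟩
    rw [hm2]
    ext i j
    fin_cases i <;> fin_cases j <;> simp [e0, e1]
  · have e0 : μ 0 = - lpos ga al nb := by linarith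
    have e1 : μ 1 = lpos al ga nb := by linarith
    set S : Matrix (Fin 2) (Fin 2) ℂ := !![0, 1; 1, 0] with hS
    have hSS : S * Sᴴ = 1 := by
      rw [hS]
      ext i j
      fin_cases i <;> fin_cases j <;> simp [Matrix.mul_apply, Fin.sum_univ_two, conjTranspose_apply]
    refine ⟨B * V * S, ?_, ?_⟩
    · rw [conjTranspose_mul, ← hm1]
      calc B * V * S * (Sᴴ * (B * V)ᴴ) = B * V * (S * Sᴴ) * (B * V)ᴴ := by
            simp only [Matrix.mul_assoc]
        _ = _ := by rw [hSS, Matrix.mul_one]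
    · rw [conjTranspose_mul]
      have : Sᴴ * (B * V)ᴴ * J2 * (B * V * S) = Sᴴ * ((B * V)ᴴ * J2 * (B * V)) * S := by
        simp only [Matrix.mul_assoc]
      rw [this, hm2, hS]
      ext i j
      fin_cases i <;> fin_cases j <;>
        simp [Matrix.mul_apply, Fin.sum_univ_two, conjTranspose_apply, e0, e1, diagonal_apply]

end Pool.Agent.Lib_helper33.Renyi
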